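import Pool.Agent.Helper37.Mader.Path

set_option autoImplicit false

namespace Pool.Agent.Results.MP_88432c_co.AllConnectivity

open Pool.Agent.Helper37.Mader

/-- The digraph `adj` on the vertex set `Fin n`, restricted to `W`, is `k`-connected: `W` has at
least `k + 1` elements and for any two distinct `a, b` in `W` there are `k` pairwise internally
disjoint directed paths from `a` to `b` inside `W`. -/
def KConn {n : ℕ} (adj : Fin n → Fin n → Prop) (k : ℕ) (W : Set (Fin n)) : Prop :=
  k + 1 ≤ W.ncard ∧
    ∀ a ∈ W, ∀ b ∈ W, a ≠ b →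
      ∃ p : Fin k → List (Fin n), Function.Injective p ∧
        (∀ i, (p i).head? = some a ∧ (p i).getLast? = some b ∧ (p i).Nodup ∧
          (∀ v ∈ p i, v ∈ W) ∧
          ∀ (j : ℕ) (u w : Fin n), (p i)[j]? = some u → (p i)[j+1]? = some w → adj u w) ∧
        ∀ i j, i ≠ j → ∀ v, v ∈ p i → v ∈ p j → v = a ∨ v = b

theorem result (m k n : ℕ) (hm : 1 ≤ m) (hk : 1 ≤ k) (adj : Fin n → Fin n → Prop)
    (hirr : ∀ v, ¬ adj v v) (hconn : KConn adj k Set.univ)
    (hdeg : ∀ v, 2 * k * m + m - 1 ≤ Set.ncard {w | adj v w} ∧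
      2 * k * m + m - 1 ≤ Set.ncard {w | adj w v}) :
    ∃ P : Fin m → Fin n, Function.Injective P ∧
      (∀ i j : Fin m, i.val + 1 = j.val → adj (P i) (P j)) ∧
      KConn adj k (Set.range P)ᶜ := by
  classical
  have hn : k + 1 ≤ n := by
    have := hconn.1
    rw [Set.ncard_univ, Nat.card_fin] at this
    exact this
  have hne : Nonempty (Fin n) := ⟨⟨0, by omega⟩⟩
  have hout : ∀ v, 2 * k * m + m ≤ (Finset.univ.filter (fun x => adj v x)).card + 1 := by
    intro v
    have h1 := (hdeg v).1
    have h2 : Set.ncard {w | adj v w} = (Finset.univ.filter (fun x => adj v x)).card := by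
      rw [← Set.ncard_coe_finset]
      congr 1
      ext w
      simp
    omega
  have hin : ∀ v, 2 * k * m + m ≤ (Finset.univ.filter (fun x => adj x v)).card + 1 := by
    intro v
    have h1 := (hdeg v).2
    have h2 : Set.ncard {w | adj w v} = (Finset.univ.filter (fun x => adj x v)).card := by
      rw [← Set.ncard_coe_finset]
      congr 1
      ext w
      simp
    omega
  have hsep : ∀ A B, Sep adj A B → A.Nonempty → B.Nonempty → k ≤ (TT A B).card := by
    intro A B hs hA hB
    obtain ⟨a, ha⟩ := hA
    obtain ⟨b, hb⟩ := hB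
    have hab : a ≠ b := (hs a ha b hb).1
    have hp : PathsIn adj ((Finset.univ : Finset (Fin n)) : Set (Fin n)) k a b := by
      rw [Finset.coe_univ]
      exact hconn.2 a (Set.mem_univ _) b (Set.mem_univ _) hab
    have h1 := le_of_paths hs ha hb hp
    rw [← Finset.compl_eq_univ_sdiff] at h1
    exact h1
  obtain ⟨u, hu1, hu2, P, hP1, hP2, hP3⟩ := exists_light_path hirr hm hne hsep hout hin
  refine ⟨P, hP1, hP2, ?_⟩
  have hset : (Set.range P)ᶜ = (((Finset.univ.image P)ᶜ : Finset (Fin n)) : Set (Fin n)) := by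
    ext v
    simp
  rw [hset]
  have hcard : k + 1 ≤ ((Finset.univ.image P)ᶜ : Finset (Fin n)).card := by
    rw [Finset.card_compl, Fintype.card_fin, Finset.card_image_of_injective _ hP1,
      Finset.card_univ, Fintype.card_fin]
    have h1 := hout ⟨0, by omega⟩
    have h2 : (Finset.univ.filter (fun x => adj (⟨0, by omega⟩ : Fin n) x)).card + 1 ≤ n := by
      have h3 : Finset.univ.filter (fun x => adj (⟨0, by omega⟩ : Fin n) x) ⊆
          Finset.univ.erase (⟨0, by omega⟩ : Fin n) := by
        intro w hw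
        rw [Finset.mem_filter] at hw
        refine Finset.mem_erase.2 ⟨?_, Finset.mem_univ _⟩
        rintro rfl
        exact hirr _ hw.2
      have h4 := Finset.card_le_card h3
      rw [Finset.card_erase_of_mem (Finset.mem_univ _), Finset.card_univ, Fintype.card_fin] at h4
      omega
    have h5 : k + 1 ≤ 2 * k * m := by nlinarith
    omega
  refine ⟨?_, ?_⟩
  · rw [Set.ncard_coe_finset]
    exact hcard
  · intro a ha b hb hab
    exact paths_of_lb hab (Finset.mem_coe.1 ha) (Finset.mem_coe.1 hb) hcard
      (sep_after hk hu1 hu2 hP1 hP3 rfl)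

end Pool.Agent.Results.MP_88432c_co.AllConnectivity
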