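import Pool.Agent.Helper37.MaderNeg.Final

set_option autoImplicit false

namespace Pool.Agent.Results.MP_88432c_co.LinearExcess

open Pool.Agent.Helper37.Mader Pool.Agent.Helper37.MaderNeg

/-- The digraph `adj` on the vertex set `Fin n`, restricted to `W`, is `k`-connected: `W` has at
least `k + 1` elements and for any two distinct `a, b` in `W` there are `k` pairwise internally
disjoint directed paths from `a` to `b` inside `W`. -/
def KConn {n : ℕ} (adj : Fin n → Fin n → Prop) (k : ℕ) (W : Set (Fin n)) : Prop :=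
  k + 1 ≤ W.ncard ∧
    ∀ a ∈ W, ∀ b ∈ W, a ≠ b →
      ∃ p : Fin k → List (Fin n), Function.Injective p ∧
        (∀ i, (p i).head? = some a ∧ (p i).getLast? = some b ∧ (p i).Nodup ∧
          (∀ v ∈ p i, v ∈ W) ∧
          ∀ (j : ℕ) (u w : Fin n), (p i)[j]? = some u → (p i)[j+1]? = some w → adj u w) ∧
        ∀ i j, i ≠ j → ∀ v, v ∈ p i → v ∈ p j → v = a ∨ v = b

theorem result (k m e : ℕ) (he : 1 ≤ e) (hk : 4 * e ≤ k) (hm : 2 * e + 1 ≤ m) :
    ∃ (n : ℕ) (adj : Fin n → Fin n → Prop), (∀ v, ¬ adj v v) ∧ KConn adj k Set.univ ∧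
      (∀ v, 2 * k + m - 2 + e ≤ Set.ncard {w | adj v w} ∧
        2 * k + m - 2 + e ≤ Set.ncard {w | adj w v}) ∧
      ∀ P : Fin m → Fin n, Function.Injective P →
        (∀ i j : Fin m, i.val + 1 = j.val → adj (P i) (P j)) → ¬ KConn adj k (Set.range P)ᶜ := by
  obtain ⟨n, r, hirr, hn, hpaths, hdeg, hblock⟩ := exists_counterexample k m e he hk hm
  refine ⟨n, r, hirr, ⟨by rw [Set.ncard_univ, Nat.card_fin]; exact hn,
    fun a _ b _ hab => hpaths a b hab⟩, hdeg, fun P hP hadj hconn => ?_⟩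
  obtain ⟨a, b, ha, hb, hab, hno⟩ := hblock P hP hadj
  exact hno (hconn.2 a ha b hb hab)

end Pool.Agent.Results.MP_88432c_co.LinearExcess
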