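import Mathlib

namespace Pool.Agent.Results.MP_88432c_co.StrongCase

variable {V : Type*} [Fintype V] [DecidableEq V]

/-- a list of distinct vertices forming a directed path for `r`, inside `R` -/
def PathIn (r : V → V → Prop) (R : Finset V) (l : List V) : Prop :=
  l.IsChain r ∧ l.Nodup ∧ ∀ v ∈ l, v ∈ R

open Classical in
/-- out-neighbours -/
noncomputable def outN (r : V → V → Prop) (v : V) : Finset V := Finset.univ.filter (fun w => r v w)

omit [DecidableEq V] in
lemma mem_outN {r : V → V → Prop} {v w : V} : w ∈ outN r v ↔ r v w := by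
  simp [outN]

/-- suffix selection -/
lemma exists_suffix {V : Type*} [DecidableEq V] (N : Finset V) : ∀ (L : List V), L.Nodup → ∀ c : ℕ, 1 ≤ c →
    c ≤ (L.toFinset ∩ N).card → ∃ L₁ L₂ : List V, ∃ y, L = L₁ ++ (y :: L₂) ∧ y ∈ N ∧ c ≤ (y :: L₂).length := by
  intro L
  induction L with
  | nil => intro _ c hc h; simp at h; omega
  | cons a t ih =>
    intro hnd c hc h
    rw [List.nodup_cons] at hnd
    by_cases ha : a ∈ N
    · refine ⟨[], t, a, rfl, ha, ?_⟩
      refine h.trans ((Finset.card_le_card Finset.inter_subset_left).trans ?_)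
      exact List.toFinset_card_le _
    · have : ((a :: t).toFinset ∩ N) = t.toFinset ∩ N := by
        ext x
        simp only [List.toFinset_cons, Finset.mem_inter, Finset.mem_insert, List.mem_toFinset]
        constructor
        · rintro ⟨rfl | hx, h2⟩
          · exact absurd h2 ha
          · exact ⟨hx, h2⟩
        · rintro ⟨hx, h2⟩
          exact ⟨Or.inr hx, h2⟩
      rw [this] at h
      obtain ⟨L₁, L₂, y, h1, h2, h3⟩ := ih hnd.2 c hc h
      exact ⟨a :: L₁, L₂, y, by rw [h1]; rfl, h2, h3⟩

/-- The rotation lemma. -/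
lemma rotLemma {r : V → V → Prop} (hirr : ∀ v, ¬ r v v) {m : ℕ} {U : Finset V}
    {L M : List V} {x : V} (hP : (L ++ x :: M).IsChain r) (hnd : (L ++ x :: M).Nodup)
    (hlen : (L ++ x :: M).length = m) (hdisj : ∀ v ∈ (L ++ x :: M), v ∉ U) (hU : U.Nonempty)
    (hdegU : ∀ v ∈ U, m ≤ (outN r v ∩ (U ∪ (L ++ x :: M).toFinset)).card)
    (hdegM : ∀ v ∈ M, m ≤ (outN r v ∩ (U ∪ (L ++ x :: M).toFinset)).card) :
    ∃ P' : List V, PathIn r ((U ∪ (L ++ x :: M).toFinset).erase x) P' ∧ P'.length = m := by
  classical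
  set P := L ++ x :: M with hPdef
  -- the starting vertex
  have hstart : ∃ u ∈ U, ∀ y ∈ M.getLast?, r y u := by
    rcases List.eq_nil_or_concat M with hM | ⟨M', z, hM⟩
    · obtain ⟨u, hu⟩ := hU
      exact ⟨u, hu, by simp [hM]⟩
    · have hzM : z ∈ M := by rw [hM]; simp
      have hz := hdegM z hzM
      by_contra hcon
      push Not at hcon
      have hsub : outN r z ∩ (U ∪ P.toFinset) ⊆ P.toFinset.erase z := by
        intro w hw
        rw [Finset.mem_inter, Finset.mem_union] at hw
        obtain ⟨hw1, hw2 | hw2⟩ := hw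
        · obtain ⟨y, hy1, hy2⟩ := hcon w hw2
          rw [hM] at hy1
          simp at hy1
          subst hy1
          exact absurd (mem_outN.1 hw1) hy2
        · rw [Finset.mem_erase]
          refine ⟨?_, hw2⟩
          rintro rfl
          exact hirr _ (mem_outN.1 hw1)
      have hc1 := Finset.card_le_card hsub
      have hzP : z ∈ P.toFinset := by
        rw [List.mem_toFinset, hPdef]; simp [hzM]
      rw [Finset.card_erase_of_mem hzP, List.toFinset_card_of_nodup hnd, hlen] at hc1
      have : 0 < m := by rw [← hlen, hPdef]; simp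
      omega
  obtain ⟨u₁, hu₁, hu₁M⟩ := hstart
  -- maximal path `M ++ Q`
  let good : List V → Prop := fun Q => Q ≠ [] ∧ Q.Nodup ∧ (∀ v ∈ Q, v ∈ U) ∧ (M ++ Q).IsChain r
  have hMchain : M.IsChain r := (hP.right_of_append).tail
  have hgood1 : good [u₁] := by
    refine ⟨by simp, by simp, by simpa using hu₁, ?_⟩
    rw [List.isChain_append]
    refine ⟨hMchain, by simp, ?_⟩
    intro y hy z hz
    simp at hz
    subst hz
    exact hu₁M y hy
  have hbound : ∀ Q, good Q → Q.length ≤ Fintype.card V := by
    intro Q hQ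
    exact hQ.2.1.length_le_card
  obtain ⟨Q, hQ, hQmax⟩ : ∃ Q, good Q ∧ ∀ Q', good Q' → Q'.length ≤ Q.length := by
    have hfin : (Set.range fun Q : {Q // good Q} => Q.1.length).Finite := by
      apply Set.Finite.subset (Set.finite_Iic (Fintype.card V))
      rintro _ ⟨Q, rfl⟩
      exact hbound Q.1 Q.2
    obtain ⟨_, ⟨⟨Q, hQ⟩, rfl⟩, hmax⟩ := hfin.exists_maximal (Set.range_nonempty_iff_nonempty.2 ⟨⟨_, hgood1⟩⟩)
    refine ⟨Q, hQ, fun Q' hQ' => ?_⟩
    have h2 := @hmax Q'.length ⟨⟨Q', hQ'⟩, rfl⟩
    by_contra hcon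
    push Not at hcon
    exact absurd (h2 hcon.le) (by simpa using hcon)
  obtain ⟨hQne, hQnd, hQU, hQch⟩ := hQ
  -- disjointness facts
  have hMnd : M.Nodup := by
    have := (List.nodup_append.1 hnd).2.1
    exact (List.nodup_cons.1 this).2
  have hxM : x ∉ M := by
    have := (List.nodup_append.1 hnd).2.1
    exact (List.nodup_cons.1 this).1
  have hMP : ∀ v ∈ M, v ∈ P := by intro v hv; rw [hPdef]; simp [hv]
  have hLP : ∀ v ∈ L, v ∈ P := by intro v hv; rw [hPdef]; simp [hv]
  have hxP : x ∈ P := by rw [hPdef]; simp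
  have hLx : x ∉ L := by
    intro h
    have := (List.nodup_append.1 hnd).2.2 x h x (by simp)
    exact this rfl
  have hLM : ∀ v ∈ L, v ∉ M := by
    intro v h h'
    have := (List.nodup_append.1 hnd).2.2 v h v (by simp [h'])
    exact this rfl
  have hMQnd : (M ++ Q).Nodup := by
    rw [List.nodup_append]
    refine ⟨hMnd, hQnd, ?_⟩
    rintro a ha b hb rfl
    exact hdisj a (hMP a ha) (hQU a hb)
  have hMQmem : ∀ v ∈ M ++ Q, v ∈ (U ∪ P.toFinset).erase x := by
    intro v hv
    rw [List.mem_append] at hv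
    rw [Finset.mem_erase, Finset.mem_union, List.mem_toFinset]
    rcases hv with hv | hv
    · exact ⟨fun h => hxM (h ▸ hv), Or.inr (hMP v hv)⟩
    · exact ⟨fun h => hdisj x hxP (h ▸ hQU v hv), Or.inl (hQU v hv)⟩
  -- the last vertex
  obtain ⟨Q', u, rfl⟩ : ∃ Q' u, Q = Q' ++ [u] := by
    rcases List.eq_nil_or_concat Q with h | ⟨Q', u, h⟩
    · exact absurd h hQne
    · exact ⟨Q', u, by rw [h, List.concat_eq_append]⟩
  have huU : u ∈ U := hQU u (by simp)
  have hNU : outN r u ∩ U ⊆ Q'.toFinset := by
    intro w hw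
    rw [Finset.mem_inter] at hw
    by_contra hcon
    rw [List.mem_toFinset] at hcon
    have hwu : w ≠ u := by
      rintro rfl
      exact hirr _ (mem_outN.1 hw.1)
    have hg : good ((Q' ++ [u]) ++ [w]) := by
      refine ⟨by simp, ?_, ?_, ?_⟩
      · rw [List.nodup_append]
        refine ⟨hQnd, by simp, ?_⟩
        rintro a ha b hb rfl
        simp at hb
        subst hb
        rw [List.mem_append] at ha
        rcases ha with ha | ha
        · exact hcon ha
        · simp at ha; exact hwu ha
      · intro v hv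
        rw [List.mem_append] at hv
        rcases hv with hv | hv
        · exact hQU v hv
        · simp at hv; rw [hv]; exact hw.2
      · rw [← List.append_assoc, List.isChain_append]
        refine ⟨hQch, by simp, ?_⟩
        intro y hy z hz
        simp at hy hz
        subst hy; subst hz
        exact mem_outN.1 hw.1
    have := hQmax _ hg
    simp at this
  by_cases hcase : m ≤ (M ++ (Q' ++ [u])).length
  · refine ⟨(M ++ (Q' ++ [u])).take m, ⟨hQch.take m, (List.take_sublist _ _).nodup hMQnd, ?_⟩, ?_⟩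
    · intro v hv
      exact hMQmem v (List.mem_of_mem_take hv)
    · rw [List.length_take]; omega
  · push Not at hcase
    have hlen' : L.length + 1 + M.length = m := by
      rw [← hlen, hPdef]; simp; omega
    have hQ'len : (M ++ (Q' ++ [u])).length = M.length + Q'.length + 1 := by simp; omega
    have hdeg := hdegU u huU
    -- count
    have hsub : outN r u ∩ (U ∪ P.toFinset) ⊆
        Q'.toFinset ∪ (L.toFinset ∩ outN r u) ∪ (insert x M.toFinset) := by
      intro w hw
      rw [Finset.mem_inter, Finset.mem_union] at hw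
      obtain ⟨hw1, hw2 | hw2⟩ := hw
      · have := hNU (Finset.mem_inter.2 ⟨hw1, hw2⟩)
        simp only [Finset.mem_union]
        exact Or.inl (Or.inl this)
      · rw [List.mem_toFinset, hPdef, List.mem_append, List.mem_cons] at hw2
        simp only [Finset.mem_union, Finset.mem_inter, Finset.mem_insert, List.mem_toFinset]
        rcases hw2 with hw2 | hw2 | hw2
        · exact Or.inl (Or.inr ⟨hw2, hw1⟩)
        · exact Or.inr (Or.inl hw2)
        · exact Or.inr (Or.inr hw2)
    have hc1 := Finset.card_le_card hsub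
    have hc2 : (Q'.toFinset ∪ (L.toFinset ∩ outN r u) ∪ (insert x M.toFinset)).card ≤
        Q'.length + (L.toFinset ∩ outN r u).card + (M.length + 1) := by
      refine (Finset.card_union_le _ _).trans ?_
      refine Nat.add_le_add ((Finset.card_union_le _ _).trans ?_) ?_
      · exact Nat.add_le_add_right (List.toFinset_card_le _) _
      · exact (Finset.card_insert_le _ _).trans (Nat.add_le_add_right (List.toFinset_card_le _) _)
    have hLnd : L.Nodup := (List.nodup_append.1 hnd).1
    obtain ⟨L₁, L₂, y, hL, hy, hL₂⟩ := exists_suffix (outN r u) L hLnd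
      (m - (M.length + Q'.length + 1)) (by omega) (by omega)
    have hLchain : L.IsChain r := hP.left_of_append
    have hyL₂ : (y :: L₂).IsChain r := by
      rw [hL] at hLchain
      exact hLchain.right_of_append
    have hbig : ((M ++ (Q' ++ [u])) ++ (y :: L₂)).IsChain r := by
      rw [List.isChain_append]
      refine ⟨hQch, hyL₂, ?_⟩
      intro a ha b hb
      simp at ha hb
      subst ha; subst hb
      exact mem_outN.1 hy
    have hsubL : ∀ v ∈ (y :: L₂), v ∈ L := by
      intro v hv; rw [hL, List.mem_append]; exact Or.inr hv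
    have hbignd : ((M ++ (Q' ++ [u])) ++ (y :: L₂)).Nodup := by
      rw [List.nodup_append]
      refine ⟨hMQnd, ?_, ?_⟩
      · rw [hL] at hLnd
        exact (List.nodup_append.1 hLnd).2.1
      · rintro a ha b hb rfl
        have haL := hsubL a hb
        rw [List.mem_append] at ha
        rcases ha with ha | ha
        · exact hLM a haL ha
        · exact hdisj a (hLP a haL) (hQU a ha)
    have hbigmem : ∀ v ∈ ((M ++ (Q' ++ [u])) ++ (y :: L₂)), v ∈ (U ∪ P.toFinset).erase x := by
      intro v hv
      rw [List.mem_append] at hv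
      rcases hv with hv | hv
      · exact hMQmem v hv
      · have hvL := hsubL v hv
        rw [Finset.mem_erase, Finset.mem_union, List.mem_toFinset]
        exact ⟨fun h => hLx (h ▸ hvL), Or.inr (hLP v hvL)⟩
    refine ⟨((M ++ (Q' ++ [u])) ++ (y :: L₂)).take m, ⟨hbig.take m,
      (List.take_sublist _ _).nodup hbignd, ?_⟩, ?_⟩
    · intro v hv
      exact hbigmem v (List.mem_of_mem_take hv)
    · rw [List.length_take, List.length_append]
      omega

/-- last element with a property -/
lemma exists_last {α : Type*} (π : α → Prop) : ∀ l : List α, (∃ p ∈ l, π p) →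
    ∃ L x M, l = L ++ x :: M ∧ π x ∧ ∀ y ∈ M, ¬ π y := by
  intro l
  induction l with
  | nil => rintro ⟨p, hp, _⟩; simp at hp
  | cons a t ih =>
    rintro ⟨p, hp, hπ⟩
    by_cases h : ∃ p ∈ t, π p
    · obtain ⟨L, x, M, h1, h2, h3⟩ := ih h
      exact ⟨a :: L, x, M, by rw [h1]; rfl, h2, h3⟩
    · push Not at h
      rw [List.mem_cons] at hp
      rcases hp with rfl | hp
      · exact ⟨[], p, t, rfl, hπ, h⟩
      · exact absurd hπ (h p hp)

/-- `a` and `b` are joined by a directed walk inside `W` (or are equal). -/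
def conn (r : V → V → Prop) (W : Finset V) (a b : V) : Prop :=
  Relation.ReflTransGen (fun u v => r u v ∧ u ∈ W ∧ v ∈ W) a b

omit [Fintype V] [DecidableEq V] in
lemma conn_mono {r : V → V → Prop} {W W' : Finset V} (h : W ⊆ W') {a b : V}
    (hc : conn r W a b) : conn r W' a b :=
  Relation.ReflTransGen.mono (fun _ _ ⟨h1, h2, h3⟩ => ⟨h1, h h2, h h3⟩) _ _ hc

omit [Fintype V] [DecidableEq V] in
lemma conn_swap {r : V → V → Prop} {W : Finset V} {a b : V}
    (hc : conn r W a b) : conn (fun u v => r v u) W b a := by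
  unfold conn at *
  induction hc with
  | refl => exact Relation.ReflTransGen.refl
  | tail _ hstep ih => exact Relation.ReflTransGen.head ⟨hstep.1, hstep.2.2, hstep.2.1⟩ ih

/-- Key lemma: if no `m`-path inside `R` can be avoided by a connection from `A` to `B`,
then every `m`-path inside `R` contains `A`. -/
lemma key {r : V → V → Prop} (hirr : ∀ v, ¬ r v v) {m : ℕ} {R A B : Finset V}
    (hAR : A ⊆ R) (hBR : B ⊆ R)
    (hout : ∀ v ∈ R, v ∉ B → ∀ w, r v w → w ∈ R)
    (hdeg : ∀ v ∈ R, v ∉ B → m + 1 ≤ (outN r v).card)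
    (hreach : ∀ v ∈ R, ∃ b ∈ B, conn r R v b)
    (hE : ∀ P, PathIn r R P → P.length = m → ∀ a ∈ A, a ∉ P → ∀ b ∈ B, b ∉ P →
      ¬ conn r (R \ P.toFinset) a b) :
    ∀ P, PathIn r R P → P.length = m → ∀ a ∈ A, a ∈ P := by
  classical
  by_contra hcon
  push Not at hcon
  obtain ⟨P₀, hP₀, hP₀len, a₀, ha₀, ha₀P₀⟩ := hcon
  let Reach : List V → Finset V := fun P =>
    (R \ P.toFinset).filter (fun v => ∃ b ∈ B, b ∉ P ∧ conn r (R \ P.toFinset) v b)
  have hmemReach : ∀ P v, v ∈ Reach P ↔ (v ∈ R ∧ v ∉ P) ∧ ∃ b ∈ B, b ∉ P ∧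
      conn r (R \ P.toFinset) v b := by
    intro P v
    simp only [Reach, Finset.mem_filter, Finset.mem_sdiff, List.mem_toFinset]
  -- choose `P` maximising `Reach`
  obtain ⟨P, ⟨hP, hPlen, ha₀P⟩, hPmax⟩ : ∃ P, (PathIn r R P ∧ P.length = m ∧ a₀ ∉ P) ∧
      ∀ P', (PathIn r R P' ∧ P'.length = m ∧ a₀ ∉ P') → (Reach P').card ≤ (Reach P).card := by
    have hfin : (Set.range fun P : {P // PathIn r R P ∧ P.length = m ∧ a₀ ∉ P} =>
        (Reach P.1).card).Finite := by
      apply Set.Finite.subset (Set.finite_Iic (Fintype.card V))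
      rintro _ ⟨P, rfl⟩
      exact Finset.card_le_univ _
    obtain ⟨_, ⟨⟨P, hP⟩, rfl⟩, hmax⟩ := hfin.exists_maximal
      (Set.range_nonempty_iff_nonempty.2 ⟨⟨P₀, hP₀, hP₀len, ha₀P₀⟩⟩)
    refine ⟨P, hP, fun P' hP' => ?_⟩
    have h2 := @hmax (Reach P').card ⟨⟨P', hP'⟩, rfl⟩
    by_contra hcon
    push Not at hcon
    exact absurd (h2 hcon.le) (by simpa using hcon)
  obtain ⟨hPch, hPnd, hPR⟩ := hP
  set W := Reach P with hW
  have ha₀W : a₀ ∉ W := by
    intro h
    obtain ⟨_, b, hb, hbP, hc⟩ := (hmemReach P a₀).1 h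
    exact hE P ⟨hPch, hPnd, hPR⟩ hPlen a₀ ha₀ ha₀P b hb hbP hc
  have hBW : ∀ v ∈ R, v ∉ P → v ∉ W → v ∉ B := by
    intro v hv hvP hvW hvB
    exact hvW ((hmemReach P v).2 ⟨⟨hv, hvP⟩, v, hvB, hvP, Relation.ReflTransGen.refl⟩)
  have hnoarc : ∀ v ∈ R, v ∉ P → v ∉ W → ∀ w ∈ W, ¬ r v w := by
    intro v hv hvP hvW w hw hvw
    obtain ⟨⟨hwR, hwP⟩, b, hb, hbP, hc⟩ := (hmemReach P w).1 hw
    apply hvW
    refine (hmemReach P v).2 ⟨⟨hv, hvP⟩, b, hb, hbP, ?_⟩
    refine Relation.ReflTransGen.head ⟨hvw, ?_, ?_⟩ hc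
    · simp [hv, hvP]
    · simp [hwR, hwP]
  -- the useless part
  set U : Finset V := ((R \ P.toFinset) \ W).erase a₀ with hUdef
  have hmemU : ∀ v, v ∈ U ↔ v ≠ a₀ ∧ v ∈ R ∧ v ∉ P ∧ v ∉ W := by
    intro v
    simp only [hUdef, Finset.mem_erase, Finset.mem_sdiff, List.mem_toFinset]
    tauto
  have ha₀R : a₀ ∈ R := hAR ha₀
  let π : V → Prop := fun p => p ∈ B ∨ ∃ w ∈ W, r p w
  have hcount : ∀ v ∈ R, v ∉ B → (∀ w ∈ W, ¬ r v w) →
      outN r v ⊆ insert a₀ (outN r v ∩ (U ∪ P.toFinset)) := by
    intro v hv hvB hvW w hw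
    have hvw := mem_outN.1 hw
    have hwR := hout v hv hvB w hvw
    have hwW : w ∉ W := fun h => hvW w h hvw
    rw [Finset.mem_insert, Finset.mem_inter, Finset.mem_union, List.mem_toFinset, hmemU]
    by_cases h1 : w = a₀
    · exact Or.inl h1
    · right
      refine ⟨hw, ?_⟩
      by_cases h2 : w ∈ P
      · exact Or.inr h2
      · exact Or.inl ⟨h1, hwR, h2, hwW⟩
  have hcount' : ∀ v ∈ R, v ∉ B → (∀ w ∈ W, ¬ r v w) →
      m ≤ (outN r v ∩ (U ∪ P.toFinset)).card := by
    intro v hv hvB hvW
    have h1 := Finset.card_le_card (hcount v hv hvB hvW)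
    have h2 := Finset.card_insert_le a₀ (outN r v ∩ (U ∪ P.toFinset))
    have h3 := hdeg v hv hvB
    omega
  have hUne : U.Nonempty := by
    by_contra hne
    rw [Finset.not_nonempty_iff_eq_empty] at hne
    have h0 := hcount a₀ ha₀R (hBW a₀ ha₀R ha₀P ha₀W) (hnoarc a₀ ha₀R ha₀P ha₀W)
    have h1 : outN r a₀ ⊆ P.toFinset := by
      intro w hw
      have h2 := h0 hw
      rw [Finset.mem_insert, hne, Finset.empty_union, Finset.mem_inter] at h2
      rcases h2 with h2 | h2
      · subst h2; exact absurd (mem_outN.1 hw) (hirr _)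
      · exact h2.2
    have h2 := Finset.card_le_card h1
    have h3 := hdeg a₀ ha₀R (hBW a₀ ha₀R ha₀P ha₀W)
    have h4 := List.toFinset_card_le P
    omega
  have hπ : ∃ p ∈ P, π p := by
    by_contra hno
    push Not at hno
    obtain ⟨b, hb, hc⟩ := hreach a₀ ha₀R
    -- the set `R \ W` is closed
    have hclosed : ∀ v, conn r R a₀ v → (v ∈ R ∧ v ∉ W) := by
      intro v hv
      induction hv with
      | refl => exact ⟨ha₀R, ha₀W⟩
      | tail _ hstep ih =>
        obtain ⟨h1, h2, h3⟩ := hstep
        rename_i x y _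
        refine ⟨h3, ?_⟩
        intro hyW
        by_cases hxP : x ∈ P
        · exact hno x hxP (Or.inr ⟨y, hyW, h1⟩)
        · exact hnoarc x h2 hxP ih.2 y hyW h1
    obtain ⟨hbR, hbW⟩ := hclosed b hc
    by_cases hbP : b ∈ P
    · exact hno b hbP (Or.inl hb)
    · exact hBW b hbR hbP hbW hb
  obtain ⟨L, x, M, hPeq, hx, hM⟩ := exists_last π P hπ
  subst hPeq
  have hMR : ∀ y ∈ M, y ∈ R := fun y hy => hPR y (by simp [hy])
  obtain ⟨P', ⟨hP'ch, hP'nd, hP'mem⟩, hP'len⟩ := rotLemma hirr hPch hPnd hPlen
    (fun v hv hvU => ((hmemU v).1 hvU).2.2.1 hv) hUne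
    (fun v hv => by
      obtain ⟨_, h2, h3, h4⟩ := (hmemU v).1 hv
      exact hcount' v h2 (hBW v h2 h3 h4) (hnoarc v h2 h3 h4))
    (fun v hv => by
      have h1 := hM v hv
      exact hcount' v (hMR v hv) (fun h => h1 (Or.inl h)) (fun w hw h => h1 (Or.inr ⟨w, hw, h⟩)))
  have hP'memU : ∀ v ∈ P', v ≠ x ∧ (v ∈ U ∨ v ∈ L ++ x :: M) := by
    intro v hv
    have := hP'mem v hv
    rw [Finset.mem_erase, Finset.mem_union, List.mem_toFinset] at this
    exact this
  have hP'R : ∀ v ∈ P', v ∈ R := by
    intro v hv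
    rcases (hP'memU v hv).2 with h | h
    · exact ((hmemU v).1 h).2.1
    · exact hPR v h
  have ha₀P' : a₀ ∉ P' := by
    intro h
    rcases (hP'memU a₀ h).2 with h | h
    · exact ((hmemU a₀).1 h).1 rfl
    · exact ha₀P h
  have hxP' : x ∉ P' := fun h => (hP'memU x h).1 rfl
  have hWP' : ∀ v ∈ W, v ∉ P' := by
    intro v hv hvP'
    rcases (hP'memU v hvP').2 with h | h
    · exact ((hmemU v).1 h).2.2.2 hv
    · exact ((hmemReach _ v).1 hv).1.2 h
  have hWR : ∀ v ∈ W, v ∈ R := fun v hv => ((hmemReach _ v).1 hv).1.1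
  have hWsub : ∀ v ∈ W, ∃ b ∈ B, b ∉ P' ∧ conn r (R \ P'.toFinset) v b := by
    intro v hv
    obtain ⟨⟨hvR, hvP⟩, b, hb, hbP, hc⟩ := (hmemReach _ v).1 hv
    have hbW : b ∈ W := (hmemReach _ b).2 ⟨⟨hBR hb, hbP⟩, b, hb, hbP, Relation.ReflTransGen.refl⟩
    refine ⟨b, hb, hWP' b hbW, ?_⟩
    have hcW : conn r W v b := by
      unfold conn at hc
      induction hc using Relation.ReflTransGen.head_induction_on with
      | refl => exact Relation.ReflTransGen.refl
      | head hstep hc' ih =>
        rename_i y z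
        obtain ⟨h1, h2, h3⟩ := hstep
        have hzR := (Finset.mem_sdiff.1 h3).1
        have hzP : z ∉ L ++ x :: M := by
          have := (Finset.mem_sdiff.1 h3).2
          rwa [List.mem_toFinset] at this
        have hzW : z ∈ W := (hmemReach _ z).2 ⟨⟨hzR, hzP⟩, b, hb, hbP, hc'⟩
        exact Relation.ReflTransGen.head ⟨h1, hv, hzW⟩ (ih hzW hzR hzP)
    refine conn_mono ?_ hcW
    intro w hw
    rw [Finset.mem_sdiff, List.mem_toFinset]
    exact ⟨hWR w hw, hWP' w hw⟩
  have hsub : insert x W ⊆ Reach P' := by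
    intro v hv
    rw [Finset.mem_insert] at hv
    rcases hv with rfl | hv
    · have hvR : v ∈ R := hPR v (by simp)
      refine (hmemReach _ v).2 ⟨⟨hvR, hxP'⟩, ?_⟩
      rcases hx with hx | ⟨w, hw, hxw⟩
      · exact ⟨v, hx, hxP', Relation.ReflTransGen.refl⟩
      · obtain ⟨b, hb, hbP', hc⟩ := hWsub w hw
        refine ⟨b, hb, hbP', Relation.ReflTransGen.head ⟨hxw, ?_, ?_⟩ hc⟩
        · rw [Finset.mem_sdiff, List.mem_toFinset]; exact ⟨hvR, hxP'⟩
        · rw [Finset.mem_sdiff, List.mem_toFinset]; exact ⟨hWR w hw, hWP' w hw⟩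
    · exact (hmemReach _ v).2 ⟨⟨hWR v hv, hWP' v hv⟩, hWsub v hv⟩
  have hxW : x ∉ W := by
    intro h
    exact ((hmemReach _ x).1 h).1.2 (by simp)
  have h1 := Finset.card_le_card hsub
  rw [Finset.card_insert_of_notMem hxW] at h1
  have h2 := hPmax P' ⟨⟨hP'ch, hP'nd, hP'R⟩, hP'len, ha₀P'⟩
  omega

/-- Final rotation: a set contained in all `m`-paths inside `R` forces `|R| ≤ m`. -/
lemma final {r : V → V → Prop} (hirr : ∀ v, ¬ r v v) {m : ℕ} {R C : Finset V}
    (hCne : C.Nonempty)
    (hout : ∀ v ∈ R, v ∉ C → ∀ w, r v w → w ∈ R)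
    (hdeg : ∀ v ∈ R, v ∉ C → m + 1 ≤ (outN r v).card)
    (hall : ∀ P, PathIn r R P → P.length = m → ∀ c ∈ C, c ∈ P)
    {P : List V} (hP : PathIn r R P) (hPlen : P.length = m) : R.card ≤ m := by
  classical
  by_contra hcard
  push Not at hcard
  obtain ⟨c, hc⟩ := hCne
  obtain ⟨L, x, M, hPeq, hx, hM⟩ := exists_last (fun v => v ∈ C) P ⟨c, hall P hP hPlen c hc, hc⟩
  obtain ⟨hPch, hPnd, hPR⟩ := hP
  have hUne : (R \ P.toFinset).Nonempty := by
    by_contra hne
    rw [Finset.not_nonempty_iff_eq_empty, Finset.sdiff_eq_empty_iff_subset] at hne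
    have h1 := Finset.card_le_card hne
    have h2 := List.toFinset_card_le P
    omega
  have hcount : ∀ v ∈ R, v ∉ C → m ≤ (outN r v ∩ ((R \ P.toFinset) ∪ P.toFinset)).card := by
    intro v hv hvC
    have h1 : outN r v ⊆ outN r v ∩ ((R \ P.toFinset) ∪ P.toFinset) := by
      intro w hw
      rw [Finset.mem_inter, Finset.mem_union, Finset.mem_sdiff]
      refine ⟨hw, ?_⟩
      by_cases h : w ∈ P.toFinset
      · exact Or.inr h
      · exact Or.inl ⟨hout v hv hvC w (mem_outN.1 hw), h⟩
    have h2 := Finset.card_le_card h1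
    have h3 := hdeg v hv hvC
    omega
  subst hPeq
  obtain ⟨P', ⟨hP'ch, hP'nd, hP'mem⟩, hP'len⟩ := rotLemma hirr hPch hPnd hPlen
    (fun v hv hvU => (Finset.mem_sdiff.1 hvU).2 (List.mem_toFinset.2 hv)) hUne
    (fun v hv => by
      obtain ⟨h2, h3⟩ := Finset.mem_sdiff.1 hv
      refine hcount v h2 (fun h => h3 ?_)
      rw [List.mem_toFinset]
      exact hall _ ⟨hPch, hPnd, hPR⟩ hPlen v h)
    (fun v hv => hcount v (hPR v (by simp [hv])) (hM v hv))
  have hP'R : ∀ v ∈ P', v ∈ R := by
    intro v hv
    have := hP'mem v hv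
    rw [Finset.mem_erase, Finset.mem_union, List.mem_toFinset, Finset.mem_sdiff] at this
    rcases this.2 with h | h
    · exact h.1
    · exact hPR v h
  have hxP' := hall P' ⟨hP'ch, hP'nd, hP'R⟩ hP'len x hx
  have := hP'mem x hxP'
  rw [Finset.mem_erase] at this
  exact this.1 rfl

omit [Fintype V] [DecidableEq V] in
lemma pathIn_reverse {r : V → V → Prop} {R : Finset V} {l : List V} (h : PathIn r R l) :
    PathIn (fun u v => r v u) R l.reverse := by
  obtain ⟨h1, h2, h3⟩ := h
  refine ⟨?_, List.nodup_reverse.2 h2, fun v hv => h3 v (List.mem_reverse.1 hv)⟩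
  rw [List.isChain_reverse]
  exact h1

/-- greedy long path -/
lemma greedy {r : V → V → Prop} (hirr : ∀ v, ¬ r v v) {m : ℕ} {R : Finset V} (hR : R.Nonempty)
    (hdeg : ∀ v ∈ R, m ≤ (outN r v ∩ R).card) : ∃ P, PathIn r R P ∧ P.length = m := by
  classical
  obtain ⟨v₀, hv₀⟩ := hR
  let good : List V → Prop := fun Q => Q ≠ [] ∧ PathIn r R Q
  have hgood1 : good [v₀] := ⟨by simp, by simp, by simp, by simpa using hv₀⟩
  obtain ⟨Q, hQ, hQmax⟩ : ∃ Q, good Q ∧ ∀ Q', good Q' → Q'.length ≤ Q.length := by
    have hfin : (Set.range fun Q : {Q // good Q} => Q.1.length).Finite := by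
      apply Set.Finite.subset (Set.finite_Iic (Fintype.card V))
      rintro _ ⟨Q, rfl⟩
      exact Q.2.2.2.1.length_le_card
    obtain ⟨_, ⟨⟨Q, hQ⟩, rfl⟩, hmax⟩ := hfin.exists_maximal
      (Set.range_nonempty_iff_nonempty.2 ⟨⟨_, hgood1⟩⟩)
    refine ⟨Q, hQ, fun Q' hQ' => ?_⟩
    have h2 := @hmax Q'.length ⟨⟨Q', hQ'⟩, rfl⟩
    by_contra hcon
    push Not at hcon
    exact absurd (h2 hcon.le) (by simpa using hcon)
  obtain ⟨hne, hch, hnd, hmem⟩ := hQ
  obtain ⟨Q', u, rfl⟩ : ∃ Q' u, Q = Q' ++ [u] := by
    rcases List.eq_nil_or_concat Q with h | ⟨Q', u, h⟩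
    · exact absurd h hne
    · exact ⟨Q', u, by rw [h, List.concat_eq_append]⟩
  have hsub : outN r u ∩ R ⊆ Q'.toFinset := by
    intro w hw
    rw [Finset.mem_inter] at hw
    by_contra hcon
    rw [List.mem_toFinset] at hcon
    have hwu : w ≠ u := by
      rintro rfl
      exact hirr _ (mem_outN.1 hw.1)
    have hg : good ((Q' ++ [u]) ++ [w]) := by
      refine ⟨by simp, ?_, ?_, ?_⟩
      · rw [List.isChain_append]
        refine ⟨hch, by simp, ?_⟩
        intro y hy z hz
        simp at hy hz
        subst hy; subst hz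
        exact mem_outN.1 hw.1
      · rw [List.nodup_append]
        refine ⟨hnd, by simp, ?_⟩
        rintro a ha b hb rfl
        simp at hb
        subst hb
        rw [List.mem_append] at ha
        rcases ha with ha | ha
        · exact hcon ha
        · simp at ha; exact hwu ha
      · intro v hv
        rw [List.mem_append] at hv
        rcases hv with hv | hv
        · exact hmem v hv
        · simp at hv; rw [hv]; exact hw.2
    have := hQmax _ hg
    simp at this
  have h1 := Finset.card_le_card hsub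
  have h2 := List.toFinset_card_le Q'
  have h3 := hdeg u (hmem u (by simp))
  have h4 : m ≤ (Q' ++ [u]).length := by simp; omega
  refine ⟨(Q' ++ [u]).take m, ⟨hch.take m, (List.take_sublist _ _).nodup hnd, ?_⟩, ?_⟩
  · intro v hv
    exact hmem v (List.mem_of_mem_take hv)
  · rw [List.length_take]; omega

/-- `D[S]` is strong. -/
def StrongOn (r : V → V → Prop) (S : Finset V) : Prop := ∀ a ∈ S, ∀ b ∈ S, conn r S a b

/-- The main theorem in internal form. -/
theorem main {r : V → V → Prop} (hirr : ∀ v, ¬ r v v) {m : ℕ} (hm : 1 ≤ m) [Nonempty V]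
    (hstrong : StrongOn r Finset.univ)
    (hout : ∀ v, m + 1 ≤ (outN r v).card)
    (hin : ∀ v, m + 1 ≤ (outN (fun a b => r b a) v).card) :
    ∃ P, PathIn r Finset.univ P ∧ P.length = m ∧ StrongOn r (Finset.univ \ P.toFinset) := by
  classical
  let good : Finset V → Prop := fun S => S.Nonempty ∧ StrongOn r S ∧
    ∃ P, PathIn r (Finset.univ \ S) P ∧ P.length = m
  obtain ⟨v₀⟩ := ‹Nonempty V›
  have hgood1 : good {v₀} := by
    refine ⟨by simp, ?_, ?_⟩
    · intro a ha b hb
      simp at ha hb
      subst ha; subst hb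
      exact Relation.ReflTransGen.refl
    · apply greedy hirr
      · have h1 := hout v₀
        have : (outN r v₀).Nonempty := by
          rw [← Finset.card_pos]; omega
        obtain ⟨w, hw⟩ := this
        refine ⟨w, ?_⟩
        simp only [Finset.mem_sdiff, Finset.mem_univ, true_and, Finset.mem_singleton]
        rintro rfl
        exact hirr _ (mem_outN.1 hw)
      · intro v _
        have h1 : outN r v ⊆ insert v₀ (outN r v ∩ (Finset.univ \ {v₀})) := by
          intro w hw
          by_cases h : w = v₀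
          · simp [h]
          · simp [h, hw]
        have h2 := Finset.card_le_card h1
        have h3 := Finset.card_insert_le v₀ (outN r v ∩ (Finset.univ \ {v₀}))
        have h4 := hout v
        omega
  obtain ⟨S, ⟨⟨s₀, hs₀⟩, hSs, P, hP, hPlen⟩, hSmax⟩ : ∃ S, good S ∧ ∀ S', good S' → S'.card ≤ S.card := by
    have hfin : {S : Finset V | good S}.Finite := Set.toFinite _
    obtain ⟨S, hS, hmax⟩ := Set.exists_max_image _ (fun S : Finset V => S.card) hfin ⟨_, hgood1⟩
    exact ⟨S, hS, hmax⟩
  set R : Finset V := Finset.univ \ S with hR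
  have hmemR : ∀ v, v ∈ R ↔ v ∉ S := by intro v; simp [hR]
  by_cases hcard : R.card ≤ m
  · refine ⟨P, ⟨hP.1, hP.2.1, fun v _ => Finset.mem_univ v⟩, hPlen, ?_⟩
    have h1 : P.toFinset ⊆ R := by
      intro v hv
      exact hP.2.2 v (List.mem_toFinset.1 hv)
    have h2 : P.toFinset = R := by
      apply Finset.eq_of_subset_of_card_le h1
      rw [List.toFinset_card_of_nodup hP.2.1, hPlen]
      exact hcard
    have h3 : Finset.univ \ P.toFinset = S := by
      rw [h2, hR]
      ext v; simp
    rw [h3]
    exact hSs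
  · exfalso
    push Not at hcard
    set A : Finset V := R.filter (fun v => ∃ s ∈ S, r s v) with hA
    set B : Finset V := R.filter (fun v => ∃ s ∈ S, r v s) with hB
    have hmemA : ∀ v, v ∈ A ↔ v ∈ R ∧ ∃ s ∈ S, r s v := by intro v; simp [hA]
    have hmemB : ∀ v, v ∈ B ↔ v ∈ R ∧ ∃ s ∈ S, r v s := by intro v; simp [hB]
    have hRne : R.Nonempty := by rw [← Finset.card_pos]; omega
    -- every vertex of R reaches B inside R
    have hreach : ∀ v ∈ R, ∃ b ∈ B, conn r R v b := by
      intro v hv
      have hc := hstrong v (Finset.mem_univ _) s₀ (Finset.mem_univ _)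
      unfold conn at hc
      induction hc using Relation.ReflTransGen.head_induction_on with
      | refl => exact absurd hs₀ ((hmemR _).1 hv)
      | head hstep h' ih =>
        rename_i y z
        by_cases hz : z ∈ R
        · obtain ⟨b, hb, hc⟩ := ih hz
          exact ⟨b, hb, Relation.ReflTransGen.head ⟨hstep.1, hv, hz⟩ hc⟩
        · have hzS : z ∈ S := by
            by_contra h
            exact hz ((hmemR z).2 h)
          exact ⟨y, (hmemB y).2 ⟨hv, z, hzS, hstep.1⟩, Relation.ReflTransGen.refl⟩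
    have hreachA : ∃ a, a ∈ A := by
      obtain ⟨v, hv⟩ := hRne
      have hc := hstrong s₀ (Finset.mem_univ _) v (Finset.mem_univ _)
      unfold conn at hc
      by_contra hno
      push Not at hno
      have : ∀ w, Relation.ReflTransGen (fun u v => r u v ∧ u ∈ Finset.univ ∧ v ∈ Finset.univ) s₀ w
          → w ∈ S := by
        intro w hw
        induction hw with
        | refl => exact hs₀
        | tail _ hstep ih =>
          rename_i y z _
          by_contra hz
          exact hno z ((hmemA z).2 ⟨(hmemR z).2 hz, y, ih, hstep.1⟩)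
      exact (hmemR v).1 hv (this v hc)
    -- maximality of S gives the separation property
    have hE : ∀ P, PathIn r R P → P.length = m → ∀ a ∈ A, a ∉ P → ∀ b ∈ B, b ∉ P →
        ¬ conn r (R \ P.toFinset) a b := by
      intro Q hQ hQlen a ha haQ b hb hbQ hc
      let X : Finset V := (R \ Q.toFinset).filter
        (fun v => conn r (R \ Q.toFinset) a v ∧ conn r (R \ Q.toFinset) v b)
      have hmemX : ∀ v, v ∈ X ↔ v ∈ R \ Q.toFinset ∧ conn r (R \ Q.toFinset) a v ∧
          conn r (R \ Q.toFinset) v b := by intro v; simp only [X, Finset.mem_filter]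
      have haR : a ∈ R \ Q.toFinset := by
        rw [Finset.mem_sdiff, List.mem_toFinset]; exact ⟨((hmemA a).1 ha).1, haQ⟩
      have hbR : b ∈ R \ Q.toFinset := by
        rw [Finset.mem_sdiff, List.mem_toFinset]; exact ⟨((hmemB b).1 hb).1, hbQ⟩
      have haX : a ∈ X := (hmemX a).2 ⟨haR, Relation.ReflTransGen.refl, hc⟩
      have hbX : b ∈ X := (hmemX b).2 ⟨hbR, hc, Relation.ReflTransGen.refl⟩
      have hXa : ∀ v, conn r (R \ Q.toFinset) a v → conn r (R \ Q.toFinset) v b → conn r X a v := by
        intro v hv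
        unfold conn at hv
        induction hv with
        | refl => intro _; exact Relation.ReflTransGen.refl
        | tail h1 hstep ih =>
          rename_i y z
          intro hzb
          have hyb : conn r (R \ Q.toFinset) y b := Relation.ReflTransGen.head hstep hzb
          have hyX : y ∈ X := (hmemX y).2 ⟨hstep.2.1, h1, hyb⟩
          have hzX : z ∈ X := (hmemX z).2 ⟨hstep.2.2, Relation.ReflTransGen.tail h1 hstep, hzb⟩
          exact Relation.ReflTransGen.tail (ih hyb) ⟨hstep.1, hyX, hzX⟩
      have hXb : ∀ v, conn r (R \ Q.toFinset) v b → conn r (R \ Q.toFinset) a v → conn r X v b := by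
        intro v hv
        unfold conn at hv
        induction hv using Relation.ReflTransGen.head_induction_on with
        | refl => intro _; exact Relation.ReflTransGen.refl
        | head hstep h1 ih =>
          rename_i y z
          intro hay
          have haz : conn r (R \ Q.toFinset) a z := Relation.ReflTransGen.tail hay hstep
          have hyX : y ∈ X := (hmemX y).2 ⟨hstep.2.1, hay, Relation.ReflTransGen.head hstep h1⟩
          have hzX : z ∈ X := (hmemX z).2 ⟨hstep.2.2, haz, h1⟩
          exact Relation.ReflTransGen.head ⟨hstep.1, hyX, hzX⟩ (ih haz)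
      obtain ⟨_, s₁, hs₁, hs₁a⟩ := (hmemA a).1 ha
      obtain ⟨_, s₂, hs₂, hbs₂⟩ := (hmemB b).1 hb
      have hST : S ⊆ S ∪ X := Finset.subset_union_left
      have hXT : X ⊆ S ∪ X := Finset.subset_union_right
      -- from S to any vertex of S ∪ X and back
      have hto : ∀ v ∈ S ∪ X, conn r (S ∪ X) s₁ v := by
        intro v hv
        rcases Finset.mem_union.1 hv with h | h
        · exact conn_mono hST (hSs s₁ hs₁ v h)
        · obtain ⟨_, h2, h3⟩ := (hmemX v).1 h
          refine Relation.ReflTransGen.head ⟨hs₁a, hST hs₁, hXT haX⟩ ?_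
          exact conn_mono hXT (hXa v h2 h3)
      have hfrom : ∀ v ∈ S ∪ X, conn r (S ∪ X) v s₂ := by
        intro v hv
        rcases Finset.mem_union.1 hv with h | h
        · exact conn_mono hST (hSs v h s₂ hs₂)
        · obtain ⟨_, h2, h3⟩ := (hmemX v).1 h
          refine Relation.ReflTransGen.tail ?_ ⟨hbs₂, hXT hbX, hST hs₂⟩
          exact conn_mono hXT (hXb v h3 h2)
      have hnew : good (S ∪ X) := by
        refine ⟨⟨s₀, hST hs₀⟩, ?_, Q, ⟨hQ.1, hQ.2.1, ?_⟩, hQlen⟩
        · intro u hu v hv
          have h1 := hfrom u hu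
          have h2 := conn_mono hST (hSs s₂ hs₂ s₁ hs₁)
          have h3 := hto v hv
          exact Relation.ReflTransGen.trans (Relation.ReflTransGen.trans h1 h2) h3
        · intro v hv
          have hvR := hQ.2.2 v hv
          simp only [Finset.mem_sdiff, Finset.mem_univ, true_and, Finset.mem_union]
          rintro (h | h)
          · exact (hmemR v).1 hvR h
          · have := ((hmemX v).1 h).1
            rw [Finset.mem_sdiff, List.mem_toFinset] at this
            exact this.2 hv
      have hle := hSmax _ hnew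
      have hlt : S.card < (S ∪ X).card := by
        apply Finset.card_lt_card
        rw [Finset.ssubset_iff_of_subset hST]
        refine ⟨a, hXT haX, ?_⟩
        exact (hmemR a).1 ((hmemA a).1 ha).1
      omega
    have hkey := key hirr (A := A) (B := B) (m := m) (R := R)
      (fun v hv => ((hmemA v).1 hv).1) (fun v hv => ((hmemB v).1 hv).1)
      (fun v hv hvB w hvw => by
        rw [hmemR]
        intro hw
        exact hvB ((hmemB v).2 ⟨hv, w, hw, hvw⟩))
      (fun v _ _ => hout v) hreach hE
    -- final step for the reversed digraph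
    have hirr' : ∀ v, ¬ (fun a b => r b a) v v := hirr
    have hfin := final (r := fun a b => r b a) hirr' (m := m) (R := R) (C := A) hreachA
      (fun v hv hvA w hvw => by
        rw [hmemR]
        intro hw
        exact hvA ((hmemA v).2 ⟨hv, w, hw, hvw⟩))
      (fun v _ _ => hin v)
      (fun Q hQ hQlen c hc => by
        have h1 : PathIn r R Q.reverse := pathIn_reverse hQ
        have := hkey Q.reverse h1 (by simpa using hQlen) c hc
        simpa using this)
      (pathIn_reverse hP) (by simpa using hPlen)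
    omega


/-- The digraph `adj` on the vertex set `Fin n`, restricted to `W`, is `k`-connected: `W` has at
least `k + 1` elements and for any two distinct `a, b` in `W` there are `k` pairwise internally
disjoint directed paths from `a` to `b` inside `W`. -/
def KConn {n : ℕ} (adj : Fin n → Fin n → Prop) (k : ℕ) (W : Set (Fin n)) : Prop :=
  k + 1 ≤ W.ncard ∧
    ∀ a ∈ W, ∀ b ∈ W, a ≠ b →
      ∃ p : Fin k → List (Fin n), Function.Injective p ∧
        (∀ i, (p i).head? = some a ∧ (p i).getLast? = some b ∧ (p i).Nodup ∧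
          (∀ v ∈ p i, v ∈ W) ∧
          ∀ (j : ℕ) (u w : Fin n), (p i)[j]? = some u → (p i)[j+1]? = some w → adj u w) ∧
        ∀ i j, i ≠ j → ∀ v, v ∈ p i → v ∈ p j → v = a ∨ v = b

/-- a walk given as a list yields a connection -/
lemma conn_of_list {n : ℕ} {adj : Fin n → Fin n → Prop} {W : Finset (Fin n)} :
    ∀ (l : List (Fin n)) (a b : Fin n), l.head? = some a → l.getLast? = some b →
      (∀ v ∈ l, v ∈ W) →
      (∀ (j : ℕ) (u w : Fin n), l[j]? = some u → l[j+1]? = some w → adj u w) →
      conn adj W a b := by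
  intro l
  induction l with
  | nil => intro a b h; simp at h
  | cons x t ih =>
    intro a b ha hb hW hadj
    simp at ha
    subst ha
    cases t with
    | nil =>
      simp at hb
      subst hb
      exact Relation.ReflTransGen.refl
    | cons y t' =>
      have h1 : adj x y := hadj 0 x y (by simp) (by simp)
      have h2 : conn adj W y b := by
        apply ih y b (by simp)
        · rw [List.getLast?_cons_cons] at hb; exact hb
        · intro v hv; exact hW v (List.mem_cons_of_mem _ hv)
        · intro j u w hu hw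
          exact hadj (j+1) u w (by simpa using hu) (by simpa using hw)
      exact Relation.ReflTransGen.head ⟨h1, hW x (by simp), hW y (by simp)⟩ h2

/-- a connection yields a path given as a list -/
lemma list_of_conn {n : ℕ} {adj : Fin n → Fin n → Prop} {W : Finset (Fin n)} {a b : Fin n}
    (hc : conn adj W a b) (hb : b ∈ W) :
    ∃ l : List (Fin n), l.head? = some a ∧ l.getLast? = some b ∧ l.Nodup ∧ (∀ v ∈ l, v ∈ W) ∧
      l.IsChain adj := by
  unfold conn at hc
  induction hc using Relation.ReflTransGen.head_induction_on with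
  | refl => exact ⟨[b], by simp, by simp, by simp, by simpa using hb, by simp⟩
  | head hstep h' ih =>
    rename_i x y
    obtain ⟨l, h1, h2, h3, h4, h5⟩ := ih
    by_cases hx : x ∈ l
    · obtain ⟨s, t, rfl⟩ := List.append_of_mem hx
      refine ⟨x :: t, by simp, ?_, ?_, ?_, ?_⟩
      · rw [List.getLast?_append] at h2
        simpa using h2
      · exact (List.nodup_append.1 h3).2.1
      · intro v hv; exact h4 v (List.mem_append_right _ hv)
      · exact (List.isChain_append.1 h5).2.1
    · refine ⟨x :: l, by simp, ?_, ?_, ?_, ?_⟩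
      · cases l with
        | nil => simp at h1
        | cons z t => rw [List.getLast?_cons_cons]; exact h2
      · exact List.nodup_cons.2 ⟨hx, h3⟩
      · intro v hv
        rw [List.mem_cons] at hv
        rcases hv with rfl | hv
        · exact hstep.2.1
        · exact h4 v hv
      · cases l with
        | nil => simp at h1
        | cons z t =>
          simp at h1
          subst h1
          rw [List.isChain_cons_cons]
          exact ⟨hstep.1, h5⟩

/-- The case `k = 1` of the conjecture, for every `m`. -/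
theorem result (m n : ℕ) (hm : 1 ≤ m) (adj : Fin n → Fin n → Prop) (hirr : ∀ v, ¬ adj v v)
    (hconn : KConn adj 1 Set.univ)
    (hdeg : ∀ v, 2 * 1 + m - 1 ≤ Set.ncard {w | adj v w} ∧
      2 * 1 + m - 1 ≤ Set.ncard {w | adj w v}) :
    ∃ P : Fin m → Fin n, Function.Injective P ∧
      (∀ i j : Fin m, i.val + 1 = j.val → adj (P i) (P j)) ∧
      KConn adj 1 (Set.range P)ᶜ := by
  classical
  have hn : 2 ≤ n := by
    have := hconn.1
    rw [Set.ncard_univ, Nat.card_fin] at this
    omega
  have : Nonempty (Fin n) := ⟨⟨0, by omega⟩⟩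
  have hstrong : StrongOn adj (Finset.univ : Finset (Fin n)) := by
    intro a _ b _
    by_cases hab : a = b
    · subst hab; exact Relation.ReflTransGen.refl
    obtain ⟨p, _, hp, _⟩ := hconn.2 a (Set.mem_univ _) b (Set.mem_univ _) hab
    obtain ⟨h1, h2, _, _, h5⟩ := hp 0
    exact conn_of_list (p 0) a b h1 h2 (fun v _ => Finset.mem_univ v) h5
  have hcardo : ∀ v, (outN adj v).card = Set.ncard {w | adj v w} := by
    intro v
    rw [← Set.ncard_coe_finset]
    congr 1
    ext w
    simp [outN]
  have hcardi : ∀ v, (outN (fun a b => adj b a) v).card = Set.ncard {w | adj w v} := by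
    intro v
    rw [← Set.ncard_coe_finset]
    congr 1
    ext w
    simp [outN]
  obtain ⟨P, hP, hPlen, hS⟩ := main hirr hm hstrong
    (fun v => by rw [hcardo]; have := (hdeg v).1; omega)
    (fun v => by rw [hcardi]; have := (hdeg v).2; omega)
  subst hPlen
  have hset : (Set.range (fun i : Fin P.length => P.get i))ᶜ
      = ((Finset.univ \ P.toFinset : Finset (Fin n)) : Set (Fin n)) := by
    ext v
    simp only [Set.mem_compl_iff, Set.mem_range, Finset.coe_sdiff, Finset.coe_univ,
      Set.mem_sdiff, Set.mem_univ, true_and, Finset.mem_coe, List.mem_toFinset]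
    rw [List.mem_iff_get]
  refine ⟨fun i => P.get i, ?_, ?_, ?_⟩
  · exact List.nodup_iff_injective_get.1 hP.2.1
  · intro i j hij
    have := List.isChain_iff_getElem.1 hP.1 i.val (by omega)
    simpa [hij] using this
  · rw [hset]
    refine ⟨?_, ?_⟩
    · rw [Set.ncard_coe_finset]
      -- the out-degree of a vertex gives `n ≥ m + 2`
      have h1 := (hdeg ⟨0, by omega⟩).1
      have h2 : Set.ncard {w | adj (⟨0, by omega⟩ : Fin n) w} + 1 ≤ n := by
        have h3 : {w | adj (⟨0, by omega⟩ : Fin n) w} ⊆ {w | w ≠ (⟨0, by omega⟩ : Fin n)} := by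
          intro w hw
          simp only [Set.mem_ofPred_eq] at hw ⊢
          rintro rfl
          exact hirr _ hw
        have h4 := Set.ncard_le_ncard h3 (Set.toFinite _)
        have h5 : Set.ncard {w | w ≠ (⟨0, by omega⟩ : Fin n)} + 1 = n := by
          have h6 : {w | w ≠ (⟨0, by omega⟩ : Fin n)}
              = ((Finset.univ.erase (⟨0, by omega⟩ : Fin n) : Finset (Fin n)) : Set (Fin n)) := by
            ext w; simp
          rw [h6, Set.ncard_coe_finset, Finset.card_erase_of_mem (Finset.mem_univ _),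
            Finset.card_univ, Fintype.card_fin]
          omega
        omega
      have h7 : (Finset.univ \ P.toFinset : Finset (Fin n)).card + P.toFinset.card = n := by
        rw [Finset.card_sdiff_add_card_eq_card (Finset.subset_univ _), Finset.card_univ,
          Fintype.card_fin]
      have h8 := List.toFinset_card_le P
      omega
    · intro a ha b hb hab
      rw [Finset.mem_coe] at ha hb
      obtain ⟨l, h1, h2, h3, h4, h5⟩ := list_of_conn (hS a ha b hb) hb
      refine ⟨fun _ => l, ?_, ?_, ?_⟩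
      · intro i j _; exact Subsingleton.elim _ _
      · intro _
        refine ⟨h1, h2, h3, fun v hv => Finset.mem_coe.2 (h4 v hv), ?_⟩
        intro j u w hu hw
        rw [List.getElem?_eq_some_iff] at hu hw
        obtain ⟨hj, hu⟩ := hu
        obtain ⟨hj', hw⟩ := hw
        have := List.isChain_iff_getElem.1 h5 j hj'
        rw [hu, hw] at this
        exact this
      · intro i j hij
        exact absurd (Subsingleton.elim i j) hij

end Pool.Agent.Results.MP_88432c_co.StrongCase
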